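import Mathlib
import Pool.Agent.Run7.h756.CC.Win
import Pool.Agent.Run7.h756.CC.Inter

/-!
# Graphs without `(r + 1)`-partite holes: powers of circles

Let `G` be a graph such that among any `r + 1` disjoint sets of `K` vertices there are two with an edge between
them. Then for every `k` all vertices, with a number of exceptions bounded in terms of `r`, `K` and `k`, can be
arranged in `r` circles such that ANY TWO vertices whose distance on a circle is less than `k` are adjacent.

Large sets of vertices contain large cliques (Ramsey), and of any `r + 1` disjoint large cliques two contain large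
parts all whose vertices are adjacent to each other (bipartite pigeonhole). So the theorem on circles with
good windows (`Pool.Agent.Run7.h756.CC.win_circles`) can be applied to the cliques.
-/

set_option autoImplicit false
set_option linter.unusedSectionVars false

namespace Pool.Agent.Run7.h476.PC

open Finset
open Pool.Agent.Run7.h166.TS (NH)
open Pool.Agent.Run7.h756.CC

/-- any two different elements are related -/
def Cliq {α : Type} (adj : α → α → Prop) (s : Finset α) : Prop := ∀ x ∈ s, ∀ y ∈ s, x ≠ y → adj x y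

theorem Cliq.anti {α : Type} {adj : α → α → Prop} (s t : Finset α) (h : s ⊆ t) (ht : Cliq adj t) : Cliq adj s :=
  fun x hx y hy => ht x (h hx) y (h hy)

/-- large sets contain large cliques -/
theorem large_clique (r K M : ℕ) : ∃ N : ℕ, ∀ {α : Type} [DecidableEq α] (adj : α → α → Prop),
    (∀ x y, adj x y → adj y x) → ∀ V : Finset α, NH adj V r K → ∀ Y ⊆ V, N ≤ Y.card →
      ∃ Q ⊆ Y, Q.card = M ∧ Cliq adj Q := by
  classical
  obtain ⟨N, -, hN⟩ := rp_exists 2 (M + (r + 1) * K)
  refine ⟨N, fun {α} _ adj hs V hV Y hY hc => ?_⟩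
  obtain ⟨Y', hY', hY'c⟩ := exists_subset_card_eq hc
  set τ : Fin N ≃ Y' := (Y'.equivFinOfCardEq hY'c).symm with hτ
  obtain ⟨T, i, hTc, hT⟩ := hN (fun x y => if adj (τ x) (τ y) then 0 else 1) (fun x y => by
    by_cases h : adj (τ x) (τ y)
    · rw [if_pos h, if_pos (hs _ _ h)]
    · rw [if_neg h, if_neg (fun h' => h (hs _ _ h'))])
  have hTi : (T.image (fun x => (τ x : α))).card = T.card :=
    card_image_of_injective _ (fun x y h => τ.injective (Subtype.ext h))
  have hTY : ∀ x, (τ x : α) ∈ Y := fun x => hY' (τ x).2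
  by_cases hadj : ∃ x ∈ T, ∃ y ∈ T, x ≠ y ∧ adj (τ x) (τ y)
  · obtain ⟨x₀, hx₀, y₀, hy₀, hne₀, h₀⟩ := hadj
    have hi : i = 0 := by
      have := hT x₀ hx₀ y₀ hy₀ hne₀
      rw [if_pos h₀] at this
      exact this.symm
    obtain ⟨Q, hQ, hQc⟩ := exists_subset_card_eq (s := T.image (fun x => (τ x : α))) (n := M) (by
      rw [hTi, hTc]
      have : M ≤ M + (r + 1) * K := Nat.le_add_right _ _
      omega)
    refine ⟨Q, ?_, hQc, ?_⟩
    · intro x hx
      obtain ⟨y, -, rfl⟩ := mem_image.1 (hQ hx)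
      exact hTY y
    · intro x hx y hy hxy
      obtain ⟨x', hx', rfl⟩ := mem_image.1 (hQ hx)
      obtain ⟨y', hy', rfl⟩ := mem_image.1 (hQ hy)
      have h1 := hT x' hx' y' hy' (fun h => hxy (by rw [h]))
      rw [hi] at h1
      by_contra hcon
      rw [if_neg hcon] at h1
      exact absurd h1 (by decide)
  · exfalso
    push Not at hadj
    obtain ⟨x, hx, y, hy, hxy, h⟩ := hV.edge (Z := T.image (fun x => (τ x : α))) (by
      intro x hx
      obtain ⟨y, -, rfl⟩ := mem_image.1 hx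
      exact hY (hTY y)) (by
      rw [hTi, hTc]
      have : (r + 1) * K ≤ M + (r + 1) * K := Nat.le_add_left _ _
      omega)
    obtain ⟨x', hx', rfl⟩ := mem_image.1 hx
    obtain ⟨y', hy', rfl⟩ := mem_image.1 hy
    exact hadj x' hx' y' hy' (fun h => hxy (by rw [h])) h

/-- of any `r + 1` disjoint large cliques two contain large completely joined parts -/
theorem linked (r K k : ℕ) (hK : 1 ≤ K) : ∃ M : ℕ, 1 ≤ M ∧ ∀ {α : Type} [DecidableEq α] (adj : α → α → Prop),
    (∀ x y, adj x y → adj y x) → ∀ V : Finset α, NH adj V r K →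
    ∀ Q : Fin (r + 1) → Finset α, (∀ i, Q i ⊆ V ∧ (Q i).card = M ∧ Cliq adj (Q i)) →
      (∀ i j, i ≠ j → Disjoint (Q i) (Q j)) → ∃ i j, i ≠ j ∧ Lk (Cliq adj) k (Q i) (Q j) := by
  classical
  obtain ⟨M, hM, hb⟩ := blocks (m := 2) (K := K + 2 * k) (R := r + 1) (by norm_num) (by omega) univ
  refine ⟨M, by omega, fun {α} _ adj hs V hV Q hQ hd => ?_⟩
  obtain ⟨Z, hZQ, hZc, hZ⟩ := hb (fun x y => if adj x y then 0 else 1) Q (fun g => (hQ g).2.1.ge)
  by_cases hadj : ∃ i j, i ≠ j ∧ ∃ x ∈ Z i, ∃ y ∈ Z j, adj x y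
  · obtain ⟨i, j, hij, x₀, hx₀, y₀, hy₀, h₀⟩ := hadj
    obtain ⟨κ, hκ⟩ := hZ (i, j) (mem_univ _) hij
    have hκ0 : κ = 0 := by
      have := hκ x₀ hx₀ y₀ hy₀
      rw [if_pos h₀] at this
      exact this.symm
    have hall : ∀ x ∈ Z i, ∀ y ∈ Z j, adj x y := by
      intro x hx y hy
      have h1 := hκ x hx y hy
      rw [hκ0] at h1
      by_contra hcon
      rw [if_neg hcon] at h1
      exact absurd h1 (by decide)
    refine ⟨i, j, hij, Z i ∪ Z j, ?_, ?_, ?_⟩
    · intro x hx y hy hxy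
      rcases mem_union.1 hx with hx | hx
      · rcases mem_union.1 hy with hy | hy
        · exact (hQ i).2.2 x (hZQ i hx) y (hZQ i hy) hxy
        · exact hall x hx y hy
      · rcases mem_union.1 hy with hy | hy
        · exact hs _ _ (hall y hy x hx)
        · exact (hQ j).2.2 x (hZQ j hx) y (hZQ j hy) hxy
    · have h1 : Z i ⊆ (Z i ∪ Z j) ∩ Q i := subset_inter subset_union_left (hZQ i)
      have h2 := card_le_card h1
      rw [hZc] at h2
      omega
    · have h1 : Z j ⊆ (Z i ∪ Z j) ∩ Q j := subset_inter subset_union_right (hZQ j)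
      have h2 := card_le_card h1
      rw [hZc] at h2
      omega
  · exfalso
    push Not at hadj
    have hsub : ∀ g, ∃ B ⊆ Z g, B.card = K := fun g => exists_subset_card_eq (by rw [hZc]; omega)
    choose B hBZ hBc using hsub
    set ζ : ∀ g, Fin K ≃ B g := fun g => ((B g).equivFinOfCardEq (hBc g)).symm with hζ
    have hζm : ∀ g l, (ζ g l : α) ∈ Z g := fun g l => hBZ g (ζ g l).2
    obtain ⟨u, v, huv, h⟩ := hV (fun u => (ζ u.1 u.2 : α)) (by
      rintro ⟨a, l⟩ ⟨b, l'⟩ h
      simp only at h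
      have h1 : a = b := by
        by_contra hne
        have h2 := hζm a l
        have h3 := hζm b l'
        rw [← h] at h3
        exact disjoint_left.1 (hd a b hne) (hZQ a h2) (hZQ b h3)
      subst h1
      have h3 := (ζ a).injective (Subtype.ext h)
      rw [h3]) (fun u => (hQ u.1).1 (hZQ _ (hζm _ _)))
    exact hadj u.1 v.1 huv _ (hζm _ _) _ (hζm _ _) h

/-- **Powers of circles.** -/
theorem clique_circles (r K k : ℕ) (hK : 1 ≤ K) : ∃ C : ℕ, ∀ {α : Type} [DecidableEq α] (adj : α → α → Prop),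
    (∀ x y, adj x y → adj y x) → ∀ V : Finset α, NH adj V r K →
      ∃ e : Fin r → List α, (∀ i, (e i).Nodup) ∧ (∀ i j, i ≠ j → List.Disjoint (e i) (e j)) ∧
        (∀ i, ∀ x ∈ e i, x ∈ V) ∧ (V.filter (fun x => ∀ i, x ∉ e i)).card ≤ C ∧
        ∀ i j, Cliq adj ((((e i).rotate j).take k).toFinset) := by
  classical
  obtain ⟨M, hM, hL⟩ := linked r K k hK
  obtain ⟨N, hN⟩ := large_clique r K M
  refine ⟨N, fun {α} _ adj hs V hV => ?_⟩
  obtain ⟨e, h1, h2, h3, h4, h5⟩ := win_circles (G := Cliq adj) (k := k) (D := r) Cliq.anti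
    (fun x hx => by simp at hx) hM (hN adj hs V hV) (hL adj hs V hV)
  exact ⟨e, h1, h2, h3, le_trans (le_of_eq (by congr 1)) h4.le, h5⟩

/-- **Powers of circles for several graphs at once.** -/
theorem clique_circles_inter (R r : ℕ) (hR : 1 ≤ R) : ∃ D : ℕ, ∀ K k : ℕ, 1 ≤ K → ∃ C : ℕ,
    ∀ {α : Type} [DecidableEq α] (adj : Fin R → α → α → Prop), (∀ i x y, adj i x y → adj i y x) →
      ∀ V : Finset α, (∀ i, NH (adj i) V r K) →
      ∃ e : Fin D → List α, (∀ i, (e i).Nodup) ∧ (∀ i j, i ≠ j → List.Disjoint (e i) (e j)) ∧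
        (∀ i, ∀ x ∈ e i, x ∈ V) ∧ (V.filter (fun x => ∀ i, x ∉ e i)).card ≤ C ∧
        ∀ i j, Cliq (fun x y => ∀ ρ, adj ρ x y) ((((e i).rotate j).take k).toFinset) := by
  classical
  obtain ⟨S, hS, hRS⟩ := rp_exists R r
  obtain ⟨D, rfl⟩ : ∃ D, S = D + 1 := ⟨S - 1, by omega⟩
  refine ⟨D, fun K k hK => ?_⟩
  obtain ⟨K', hK', h⟩ := nh_inter hR hRS hK
  obtain ⟨C, hC⟩ := clique_circles D K' k hK'
  exact ⟨C, fun {α} _ adj hs V hV => hC (fun x y => ∀ ρ, adj ρ x y) (fun x y hxy ρ => hs ρ _ _ (hxy ρ)) V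
    (h adj hs V hV)⟩

end Pool.Agent.Run7.h476.PC
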