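import Mathlib
import Pool.Agent.TH101.RG.TupMult
import Pool.Agent.H362R2.RQ.Place
import Pool.Agent.Run7.h166.TS.Paths

/-!
# The graph of the gaps between consecutive primes inside windows of the record length

Among `r + 1` disjoint blocks of `K` shifts below `c f(X)` (which miss a class modulo each prime up to `r + 1`)
there are two shifts in different blocks whose distance is a gap between consecutive primes of `(X, 4 X]`, many times.
The coloured Maynard-Tao theorem for arbitrary admissible tuples in the record windows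
(`Pool.Agent.TH101.RG.tuple_multiples`) is from the starting files.
-/

set_option autoImplicit false

namespace Pool.Agent.Run7.h476.PC

open Filter Finset
open Pool.Agent.H256R2.SC (ff)
open Pool.Agent.H362R2.RQ (cmod fib_cmod)
open Pool.Agent.Run7.h166.TS (NH)

/-- `p` and `p + g` are consecutive primes -/
def Consec (p g : ℕ) : Prop := p.Prime ∧ (p + g).Prime ∧ ∀ q, p < q → q < p + g → ¬ q.Prime

/-- the primes `p ≡ a (mod d)` in `(X, 4 X]` for which the next prime is `p + g` and which have at most `K`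
primes at distance at most `G` -/
def GSet (K : ℕ) (G X : ℝ) (d a g : ℕ) : Set ℕ :=
  {p : ℕ | X < p ∧ (p : ℝ) ≤ 4 * X ∧ p ≡ a [MOD d] ∧ Consec p g ∧
    {q : ℕ | q.Prime ∧ |(q : ℝ) - p| ≤ G}.ncard ≤ K}

theorem gset_fin (K : ℕ) (G X : ℝ) (d a g : ℕ) : (GSet K G X d a g).Finite := by
  refine (Set.finite_Iic ⌊4 * X⌋₊).subset fun p hp => ?_
  exact Nat.le_floor hp.2.1

/-- a residue class without negatives of given numbers -/
theorem avoid_class {ι : Type} [Fintype ι] (t : ι → ℕ) {p : ℕ} (hp : p.Prime) (h : Fintype.card ι < p) :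
    ∃ v : ℕ, ∀ i, ¬ p ∣ v + t i := by
  classical
  have : Fact p.Prime := ⟨hp⟩
  have hns : ¬ Function.Surjective (fun i => -(t i : ZMod p)) := by
    intro hsur
    have h1 := Fintype.card_le_of_surjective _ hsur
    rw [ZMod.card] at h1
    omega
  rw [Function.Surjective] at hns
  push Not at hns
  obtain ⟨z, hz⟩ := hns
  refine ⟨z.val, fun i hd => hz i ?_⟩
  have h1 : ((z.val + t i : ℕ) : ZMod p) = 0 := (ZMod.natCast_eq_zero_iff _ _).2 hd
  push_cast at h1
  rw [ZMod.natCast_zmod_val] at h1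
  exact (eq_neg_of_add_eq_zero_left h1).symm

/-- long blocks contain blocks in one class modulo `Q` -/
theorem class_blocks {m K Q : ℕ} (hQ : 0 < Q) (x : Fin m × Fin (Q * K) → ℕ) :
    ∃ c : Fin m × Fin K → Fin m × Fin (Q * K), Function.Injective c ∧ (∀ u, (c u).1 = u.1) ∧
      ∀ g j j', x (c (g, j)) ≡ x (c (g, j')) [MOD Q] := by
  classical
  have : NeZero Q := ⟨hQ.ne'⟩
  have h1 : ∀ g : Fin m, ∃ y : ZMod Q, K ≤ (univ.filter (fun j : Fin (Q * K) => ((x (g, j) : ℕ) : ZMod Q) = y)).card := by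
    intro g
    refine Fintype.exists_le_card_fiber_of_mul_le_card (fun j : Fin (Q * K) => ((x (g, j) : ℕ) : ZMod Q)) ?_
    rw [ZMod.card, Fintype.card_fin]
  choose y hy using h1
  refine ⟨fun u => (u.1, (univ.filter (fun j : Fin (Q * K) => ((x (u.1, j) : ℕ) : ZMod Q) = y u.1)).orderEmbOfCardLe
    (hy u.1) u.2), ?_, fun _ => rfl, ?_⟩
  · rintro ⟨g, j⟩ ⟨g', j'⟩ h
    simp only [Prod.mk.injEq] at h
    obtain ⟨h1, h2⟩ := h
    subst h1
    rw [((univ.filter (fun j : Fin (Q * K) => ((x (g, j) : ℕ) : ZMod Q) = y g)).orderEmbOfCardLe (hy g)).injective h2]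
  · intro g j j'
    have h2 := (mem_filter.1 (Finset.orderEmbOfCardLe_mem _ (hy g) j)).2
    have h3 := (mem_filter.1 (Finset.orderEmbOfCardLe_mem _ (hy g) j')).2
    exact (ZMod.natCast_eq_natCast_iff _ _ _).1 (h2.trans h3.symm)

/-- two neighbouring elements of different colours -/
theorem consec_pair' {ι β : Type} (W : Finset ι) (y : ι → ℕ) (hy : Function.Injective y) (col : ι → β)
    (h : ∃ u ∈ W, ∃ v ∈ W, col u ≠ col v) :
    ∃ u ∈ W, ∃ v ∈ W, col u ≠ col v ∧ y u < y v ∧ ∀ w ∈ W, ¬ (y u < y w ∧ y w < y v) := by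
  classical
  obtain ⟨u₁, hu₁, v₁, hv₁, huv₁⟩ := h
  obtain ⟨u₀, hu₀, hmin⟩ := Finset.exists_min_image W y ⟨u₁, hu₁⟩
  have hne : (W.filter (fun v => col v ≠ col u₀)).Nonempty := by
    by_contra hcon
    rw [not_nonempty_iff_eq_empty, filter_eq_empty_iff] at hcon
    have h1 := hcon hu₁
    have h2 := hcon hv₁
    push Not at h1 h2
    exact huv₁ (h1.trans h2.symm)
  obtain ⟨v, hv, hvmin⟩ := Finset.exists_min_image _ y hne
  obtain ⟨hvW, hvu⟩ := mem_filter.1 hv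
  have hne2 : (W.filter (fun w => y w < y v)).Nonempty := by
    refine ⟨u₀, mem_filter.2 ⟨hu₀, ?_⟩⟩
    refine lt_of_le_of_ne (hmin v hvW) ?_
    intro h
    exact hvu (by rw [hy h])
  obtain ⟨u, hu, humax⟩ := Finset.exists_max_image _ y hne2
  obtain ⟨huW, huv⟩ := mem_filter.1 hu
  have hu1 : col u = col u₀ := by
    by_contra hcon
    exact absurd (hvmin u (mem_filter.2 ⟨huW, hcon⟩)) (not_le.2 huv)
  refine ⟨u, huW, v, hvW, by rw [hu1]; exact Ne.symm hvu, huv, ?_⟩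
  rintro w hw ⟨hw1, hw2⟩
  exact absurd (humax w (mem_filter.2 ⟨hw, hw2⟩)) (not_le.2 hw1)

/-- **No multipartite holes in the graph of the gaps.** -/
theorem nh_rec : ∃ r K K₀ : ℕ, 1 ≤ r ∧ 1 ≤ K ∧ ∀ d : ℕ, Squarefree d → ∃ c : ℝ, 0 < c ∧ ∃ X₀ : ℝ, ∀ X : ℝ, X₀ ≤ X →
    ∀ a : ℕ, a.Coprime d → ∀ {α : Type} (V : Finset α) (f : α → ℕ), Set.InjOn f V →
    (∀ v ∈ V, (f v : ℝ) ≤ c * ff X) → (∀ v ∈ V, ∀ w ∈ V, f v ≡ f w [MOD d]) →
    (∀ p : ℕ, p.Prime → p ≤ r + 1 → ∃ s : ℕ, ∀ v ∈ V, ¬ f v ≡ s [MOD p]) →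
    NH (fun x y => X ^ (6 / 7 : ℝ) ≤ ((GSet K₀ (c * ff X) X d a (Nat.dist (f x) (f y))).ncard : ℝ)) V r K := by
  classical
  obtain ⟨η, hη, h⟩ := Pool.Agent.TH101.RG.tuple_multiples
  obtain ⟨m₀, hm₀⟩ := exists_nat_gt (1 / η)
  set m := m₀ + 2 with hm
  have hηm : 1 < η * m := by
    rw [div_lt_iff₀ hη] at hm₀
    rw [hm]
    push_cast
    nlinarith
  obtain ⟨K, hmK, h⟩ := h m (by omega)
  have hmpos : 0 < m := by omega
  have hK0 : 0 < K := by omega
  obtain ⟨Q, hQ⟩ : ∃ Q : ℕ, Q = K.factorial := ⟨_, rfl⟩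
  have hQ0 : 0 < Q := by rw [hQ]; exact Nat.factorial_pos _
  refine ⟨m₀ + 1, Q * K, K, by omega, Nat.mul_pos hQ0 hK0, fun d hd => ?_⟩
  obtain ⟨c₀, hc₀, h⟩ := h 1 1 1 d hd
  have hev : ∀ᶠ X : ℝ in atTop, (K : ℝ) ^ 2 * X ^ (6 / 7 : ℝ) ≤ X ^ (7 / 8 : ℝ) := by
    filter_upwards [(tendsto_rpow_atTop (by norm_num : (0 : ℝ) < 1 / 56)).eventually_ge_atTop ((K : ℝ) ^ 2),
      eventually_gt_atTop (0 : ℝ)] with X h1 h2
    calc (K : ℝ) ^ 2 * X ^ (6 / 7 : ℝ) ≤ X ^ (1 / 56 : ℝ) * X ^ (6 / 7 : ℝ) :=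
          mul_le_mul_of_nonneg_right h1 (Real.rpow_nonneg h2.le _)
      _ = X ^ (7 / 8 : ℝ) := by
          rw [← Real.rpow_add h2]
          norm_num
  obtain ⟨X₀, hX₀⟩ := eventually_atTop.1 (h.and ((Pool.Agent.H312R2.RG.ev_ff c₀ hc₀).and (hev.and
    ((eventually_ge_atTop (1 : ℝ)).and (Real.tendsto_log_atTop.eventually_ge_atTop (1 : ℝ))))))
  refine ⟨c₀ / 2, by positivity, X₀, fun X hX a ha {α} V f hf hVc hVd hVp Y hYinj hYV => ?_⟩
  obtain ⟨hT, hff, hXp, hX1, hXl⟩ := hX₀ X hX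
  have hcff : 0 ≤ c₀ * ff X := mul_nonneg hc₀.le hff.2.1
  by_contra hcon
  push Not at hcon
  obtain ⟨c, hcinj, hc1, hc2⟩ := class_blocks (K := K) hQ0 (fun u => f (Y u))
  set t : Fin K → ℕ := fun j => f (Y (c (cmod K m hmpos j, j))) with ht
  have htinj : Function.Injective t := by
    intro j j' hj
    have h1 := hYinj (hf (mem_coe.2 (hYV _)) (mem_coe.2 (hYV _)) hj)
    have h2 := hcinj h1
    simp only [Prod.mk.injEq] at h2
    exact h2.2
  have htc : ∀ j, (t j : ℝ) ≤ c₀ / 2 * ff X := fun j => hVc _ (hYV _)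
  have htc' : ∀ j, (t j : ℝ) ≤ c₀ * ff X := fun j => by
    have := htc j
    linarith
  have hadm : ∀ p : ℕ, p.Prime → ∃ v : ℕ, ∀ j, ¬ p ∣ v + t j := by
    intro p hp
    by_cases hpm : p ≤ m
    · obtain ⟨s, hs⟩ := hVp p hp (by omega)
      refine ⟨p * s - s, fun j hd' => hs _ (hYV (c (cmod K m hmpos j, j))) ?_⟩
      have hsp : s ≤ p * s := Nat.le_mul_of_pos_left _ hp.pos
      have h1 : (p : ℤ) ∣ ((p * s - s + t j : ℕ) : ℤ) := by exact_mod_cast hd'
      push_cast [Nat.cast_sub hsp] at h1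
      have h2 : (p : ℤ) ∣ (t j : ℤ) - s := by
        have h3 : (t j : ℤ) - s = ((p : ℤ) * s - s + t j) - p * s := by ring
        rw [h3]
        exact dvd_sub h1 (dvd_mul_right _ _)
      exact ((Nat.modEq_iff_dvd).2 h2).symm
    · by_cases hpK : p ≤ K
      · obtain ⟨v, hv⟩ := avoid_class (fun g : Fin m => f (Y (c (g, ⟨0, hK0⟩)))) hp (by
          rw [Fintype.card_fin]; omega)
        refine ⟨v, fun j hd' => hv (cmod K m hmpos j) ?_⟩
        have h1 : f (Y (c (cmod K m hmpos j, j))) ≡ f (Y (c (cmod K m hmpos j, ⟨0, hK0⟩))) [MOD p] :=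
          (hc2 _ _ _).of_dvd (by rw [hQ]; exact Nat.dvd_factorial hp.pos hpK)
        exact ((h1.add_left v).dvd_iff (dvd_refl p)).1 hd'
      · obtain ⟨v, hv⟩ := avoid_class t hp (by rw [Fintype.card_fin]; omega)
        exact ⟨v, hv⟩
  -- the residue class
  have hd0 : 0 < d := Nat.pos_of_ne_zero hd.ne_zero
  set s₀ := t ⟨0, hK0⟩ with hs₀
  set h' := a + (d * s₀ - s₀) with hh'
  have hcl : ∀ j, h' + t j ≡ a [MOD d] := by
    intro j
    have h1 : t j ≡ s₀ [MOD d] := hVd _ (hYV _) _ (hYV _)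
    have h2 : h' + t j ≡ h' + s₀ [MOD d] := h1.add_left _
    refine h2.trans ?_
    have h3 : s₀ ≤ d * s₀ := Nat.le_mul_of_pos_left _ hd0
    have h4 : h' + s₀ = a + d * s₀ := by omega
    rw [h4]
    have h5 : a + d * s₀ ≡ a + 0 [MOD d] := (Nat.modEq_zero_iff_dvd.2 (dvd_mul_right _ _)).add_left a
    exact h5
  -- the exceptional places
  set G : Fin K → Fin K → Set ℕ := fun w z => GSet K (c₀ / 2 * ff X) X d a (t z - t w) with hG
  have hGf : ∀ w z, (G w z).Finite := fun w z => gset_fin _ _ _ _ _ _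
  set bad : Finset ℕ := (univ : Finset (Fin K × Fin K)).biUnion (fun z =>
    if cmod K m hmpos z.1 ≠ cmod K m hmpos z.2 ∧ t z.1 < t z.2 then ((hGf z.1 z.2).toFinset).image (fun p => p - t z.1)
      else ∅) with hbad
  have hbadc : (bad.card : ℝ) ≤ X ^ (7 / 8 : ℝ) := by
    refine le_trans ?_ hXp
    have h0 : (bad.card : ℝ) ≤ ∑ z : Fin K × Fin K,
        (((if cmod K m hmpos z.1 ≠ cmod K m hmpos z.2 ∧ t z.1 < t z.2 then
          ((hGf z.1 z.2).toFinset).image (fun p => p - t z.1) else ∅ : Finset ℕ).card : ℕ) : ℝ) := by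
      rw [hbad]
      exact_mod_cast card_biUnion_le
    refine h0.trans ?_
    have h1 : ∀ z : Fin K × Fin K, (((if cmod K m hmpos z.1 ≠ cmod K m hmpos z.2 ∧ t z.1 < t z.2 then
          ((hGf z.1 z.2).toFinset).image (fun p => p - t z.1) else ∅ : Finset ℕ).card : ℕ) : ℝ) ≤ X ^ (6 / 7 : ℝ) := by
      intro z
      split_ifs with hz
      · have h2 := hcon (c (cmod K m hmpos z.1, z.1)) (c (cmod K m hmpos z.2, z.2)) (by
          rw [hc1, hc1]; exact hz.1)
        have h3 : Nat.dist (f (Y (c (cmod K m hmpos z.1, z.1)))) (f (Y (c (cmod K m hmpos z.2, z.2)))) =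
            t z.2 - t z.1 := Nat.dist_eq_sub_of_le hz.2.le
        rw [h3] at h2
        refine le_trans ?_ h2.le
        rw [Set.ncard_eq_toFinset_card _ (hGf z.1 z.2)]
        exact_mod_cast card_image_le
      · simpa using Real.rpow_nonneg (by linarith) _
    calc ∑ z : Fin K × Fin K, (((if cmod K m hmpos z.1 ≠ cmod K m hmpos z.2 ∧ t z.1 < t z.2 then
          ((hGf z.1 z.2).toFinset).image (fun p => p - t z.1) else ∅ : Finset ℕ).card : ℕ) : ℝ)
        ≤ ∑ _z : Fin K × Fin K, X ^ (6 / 7 : ℝ) := sum_le_sum fun z _ => h1 z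
      _ = (K : ℝ) ^ 2 * X ^ (6 / 7 : ℝ) := by
          rw [sum_const, card_univ, Fintype.card_prod, Fintype.card_fin, nsmul_eq_mul]
          push_cast
          ring
  obtain ⟨n, hXn, hn3, hnb, hnd, ⟨E, hE1, hE2⟩, hiso⟩ := hT 1 0 one_ne_zero (by
      rw [pow_one]
      simpa using hXl)
    (by simp) (by
      rw [pow_one]
      simp only [Int.cast_zero, abs_zero]
      linarith) t htinj (fun j => (htc' j).trans hff.1) hadm h' (fun j => by
      have h1 := (hcl j).gcd_eq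
      rw [Nat.Coprime, h1]
      exact ha)
    (cmod K m hmpos) (fun e => fib_cmod K m hmpos hmK e) bad hbadc
  have hiso' : ∀ q : ℕ, q.Prime → |(q : ℝ) - n| ≤ c₀ * ff X → ∃ l, q = n + t l := by
    intro q hq hqn
    refine hiso 1 1 (by simp) (by simp) (by simp) (by simp) q hq ?_
    have h1 : ((1 * (q : ℤ) - 1 * (1 * (n : ℤ) + 0) : ℤ) : ℝ) = (q : ℝ) - n := by push_cast; ring
    rw [h1]
    exact hqn
  have hE3 : 1 < E.card := by
    have h1 : (1 : ℝ) < E.card := lt_of_lt_of_le hηm hE1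
    exact_mod_cast h1
  obtain ⟨e, he, e', he', hee⟩ := Finset.one_lt_card.1 hE3
  obtain ⟨j, hj1, hj2⟩ := hE2 e he
  obtain ⟨j', hj1', hj2'⟩ := hE2 e' he'
  obtain ⟨w, hw, z, hz, hwz, hlt, hbet⟩ := consec_pair' (univ.filter (fun j => (n + t j).Prime)) t htinj
    (cmod K m hmpos) ⟨j, mem_filter.2 ⟨mem_univ _, hj2⟩, j', mem_filter.2 ⟨mem_univ _, hj2'⟩, by
      rw [hj1, hj1']; exact hee⟩
  have hwP := (mem_filter.1 hw).2
  have hzP := (mem_filter.1 hz).2
  apply hnb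
  rw [hbad, mem_biUnion]
  refine ⟨(w, z), mem_univ _, ?_⟩
  rw [if_pos ⟨hwz, hlt⟩, mem_image]
  refine ⟨n + t w, ?_, by show n + t w - t w = n; omega⟩
  rw [Set.Finite.mem_toFinset]
  have e1 : n + t w + (t z - t w) = n + t z := by omega
  have hw0 : (0 : ℝ) ≤ t w := Nat.cast_nonneg _
  have hwX : (t w : ℝ) ≤ X := by
    have h2 := htc' w
    have h3 := hff.2.2
    linarith
  refine ⟨by push_cast; linarith, by push_cast; linarith, (hnd.add_right _).trans (hcl w), ⟨hwP, by rw [e1]; exact hzP, ?_⟩,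
    ?_⟩
  · intro q hq1 hq2 hqp
    rw [e1] at hq2
    obtain ⟨l, hl⟩ := hiso' q hqp (by
      have h2 : (q : ℝ) ≤ ((n + t z : ℕ) : ℝ) := by exact_mod_cast hq2.le
      have h2' : (((n + t w : ℕ) : ℝ)) ≤ (q : ℝ) := by exact_mod_cast hq1.le
      push_cast at h2 h2'
      have h3 := htc' z
      rw [abs_of_nonneg (by linarith)]
      linarith)
    rw [hl] at hq1 hq2 hqp
    exact hbet l (mem_filter.2 ⟨mem_univ _, hqp⟩) ⟨by omega, by omega⟩
  · have hsub : {q : ℕ | q.Prime ∧ |(q : ℝ) - ((n + t w : ℕ) : ℝ)| ≤ c₀ / 2 * ff X} ⊆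
        ((univ.image (fun l => n + t l) : Finset ℕ) : Set ℕ) := by
      rintro q ⟨hq1, hq2⟩
      obtain ⟨l, hl⟩ := hiso' q hq1 (by
        push_cast at hq2
        have h3 : (q : ℝ) - n = ((q : ℝ) - (n + t w)) + t w := by ring
        rw [h3]
        refine (abs_add_le _ _).trans ?_
        rw [abs_of_nonneg hw0]
        have h4 := htc w
        linarith)
      rw [mem_coe, mem_image]
      exact ⟨l, mem_univ _, hl.symm⟩
    refine le_trans (Set.ncard_le_ncard hsub (finite_toSet _)) ?_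
    rw [Set.ncard_coe_finset]
    exact card_image_le.trans (by simp)

end Pool.Agent.Run7.h476.PC
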