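import Mathlib
import Pool.Agent.Run7.h476.PC.Graph
import Pool.Agent.Run7.h476.PC.RecNH

/-!
# Powers of circles of gaps between consecutive primes, up to the record scale, for several systems at once
-/

set_option autoImplicit false

namespace Pool.Agent.Run7.h476.PC

open Filter Finset
open Pool.Agent.H256R2.SC (ff)
open Pool.Agent.Run7.h166.TS (NH)

/-- a list without repetitions, any two of whose members among `k` cyclically successive ones are related -/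
def PCircle (k : ℕ) (adj : ℕ → ℕ → Prop) (l : List ℕ) : Prop :=
  l.Nodup ∧ ∀ j, ∀ x ∈ (l.rotate j).take k, ∀ y ∈ (l.rotate j).take k, x ≠ y → adj x y

/-- disjoint lists of elements of `V` which contain all elements of `V` with at most `C` exceptions -/
def Arr {D : ℕ} (V : Finset ℕ) (C : ℕ) (e : Fin D → List ℕ) : Prop :=
  (∀ i j, i ≠ j → List.Disjoint (e i) (e j)) ∧ (∀ i, ∀ x ∈ e i, x ∈ V) ∧
    ∃ B : Finset ℕ, B.card ≤ C ∧ ∀ x ∈ V, x ∉ B → ∃ i, x ∈ e i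

theorem rec_circles : ∃ (K P : ℕ) (D : ℕ → ℕ) (C : ℕ → ℕ → ℕ), ∀ d : ℕ, Squarefree d →
    ∃ c X₀ : ℝ, 0 < c ∧ ∀ R k : ℕ, 1 ≤ R → ∀ (X : Fin R → ℝ) (a : Fin R → ℕ) (g : Fin R → ℕ → ℕ) (V : Finset ℕ),
    (∀ i, X₀ ≤ X i ∧ (a i).Coprime d ∧ Set.InjOn (g i) V ∧ ∀ v ∈ V, (g i v : ℝ) ≤ c * ff (X i)) →
    (∀ i, ∀ v ∈ V, ∀ w ∈ V, g i v ≡ g i w [MOD d]) →
    (∀ i, ∀ p : ℕ, p.Prime → p ≤ P → ∃ s : ℕ, ∀ v ∈ V, ¬ g i v ≡ s [MOD p]) →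
    ∃ e : Fin (D R) → List ℕ, Arr V (C R k) e ∧ ∀ j, PCircle k (fun x y => ∀ i, (X i) ^ (6 / 7 : ℝ) ≤
      ((GSet K (c * ff (X i)) (X i) d (a i) (Nat.dist (g i x) (g i y))).ncard : ℝ)) (e j) := by
  classical
  obtain ⟨r, K, K₀, hr, hK, h⟩ := nh_rec
  have hD : ∀ R : ℕ, ∃ D : ℕ, 1 ≤ R → ∀ K k : ℕ, 1 ≤ K → ∃ C : ℕ,
    ∀ {α : Type} [DecidableEq α] (adj : Fin R → α → α → Prop), (∀ i x y, adj i x y → adj i y x) →
      ∀ V : Finset α, (∀ i, NH (adj i) V r K) →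
      ∃ e : Fin D → List α, (∀ i, (e i).Nodup) ∧ (∀ i j, i ≠ j → List.Disjoint (e i) (e j)) ∧
        (∀ i, ∀ x ∈ e i, x ∈ V) ∧ (V.filter (fun x => ∀ i, x ∉ e i)).card ≤ C ∧
        ∀ i j, Cliq (fun x y => ∀ ρ, adj ρ x y) ((((e i).rotate j).take k).toFinset) := by
    intro R
    by_cases hR : 1 ≤ R
    · obtain ⟨D, hD⟩ := clique_circles_inter R r hR
      exact ⟨D, fun _ => hD⟩
    · exact ⟨0, fun h => absurd h hR⟩
  choose D hD using hD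
  have hC : ∀ R k : ℕ, ∃ C : ℕ, 1 ≤ R →
    ∀ (adj : Fin R → ℕ → ℕ → Prop), (∀ i x y, adj i x y → adj i y x) →
      ∀ V : Finset ℕ, (∀ i, NH (adj i) V r K) →
      ∃ e : Fin (D R) → List ℕ, (∀ i, (e i).Nodup) ∧ (∀ i j, i ≠ j → List.Disjoint (e i) (e j)) ∧
        (∀ i, ∀ x ∈ e i, x ∈ V) ∧ (V.filter (fun x => ∀ i, x ∉ e i)).card ≤ C ∧
        ∀ i j, Cliq (fun x y => ∀ ρ, adj ρ x y) ((((e i).rotate j).take k).toFinset) := by
    intro R k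
    by_cases hR : 1 ≤ R
    · obtain ⟨C, hC⟩ := hD R hR K k hK
      exact ⟨C, fun _ adj hs V hV => hC adj hs V hV⟩
    · exact ⟨0, fun h => absurd h hR⟩
  choose C hC using hC
  refine ⟨K₀, r + 1, D, C, fun d hd => ?_⟩
  obtain ⟨c, hc, X₀, hX₀⟩ := h d hd
  refine ⟨c, X₀, hc, fun R k hR X a g V hX hd' hp => ?_⟩
  obtain ⟨e, h1, h2, h3, h4, h5⟩ := hC R k hR (fun i x y => (X i) ^ (6 / 7 : ℝ) ≤
      ((GSet K₀ (c * ff (X i)) (X i) d (a i) (Nat.dist (g i x) (g i y))).ncard : ℝ)) (fun i x y hxy => by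
    rw [Nat.dist_comm]; exact hxy) V (fun i => hX₀ (X i) (hX i).1 (a i) (hX i).2.1 V (g i) (hX i).2.2.1
    (hX i).2.2.2 (hd' i) (hp i))
  refine ⟨e, ⟨h2, h3, _, h4, fun x hx hxB => ?_⟩, fun j => ⟨h1 j, fun l x hx y hy hxy => ?_⟩⟩
  · by_contra hcon
    push Not at hcon
    exact hxB (mem_filter.2 ⟨hx, hcon⟩)
  · exact h5 j l x (List.mem_toFinset.2 hx) y (List.mem_toFinset.2 hy) hxy

end Pool.Agent.Run7.h476.PC
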